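import Pool.Agent.Lib.MP_2eb2b4_co.Bridge

/-!
L-hitting numbers of initial segments of the 2-3 grid: the exact value of f n for every n.
-/

namespace Pool.Agent.Results.MP_2eb2b4_co.ExactFormula

open Pool.Agent.Lib.MP_2eb2b4_co

theorem result : ∀ n : ℕ, 1 ≤ n → (f n : ℤ) = min (g n 0) (min (g n 1) (g n 2)) :=
  fun _ hn => exact_formula hn

end Pool.Agent.Results.MP_2eb2b4_co.ExactFormula
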