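import Pool.Agent.Lib.MP_2eb2b4_co.Seg

/-!
L-hitting numbers of initial segments of the 2-3 grid: f n < h n for infinitely many n.
-/

namespace Pool.Agent.Results.MP_2eb2b4_co.InfinitelyOften

open Pool.Agent.Lib.MP_2eb2b4_co

theorem result : {n : ℕ | 1 ≤ n ∧ (f n : ℤ) < h n}.Infinite := by
  refine Set.infinite_of_forall_exists_gt fun K => ?_
  obtain ⟨m, M, hm, h1, h2, e0, e1⟩ := exists_equal (Nat.nth (fun x => x ∈ A) K)
  have h8 : m < 8 ^ m := Nat.lt_pow_self (by norm_num)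
  have hK : K < idx M := le_idx (by omega)
  refine ⟨idx M, ⟨by omega, ?_⟩, hK⟩
  have := patch h1 h2
  rw [h, ncard_B M (k := 0) (by norm_num), ncard_B M (k := 1) (by norm_num),
    ncard_B M (k := 2) (by norm_num), Bt_empty h1 h2, Bt_empty h1 h2, Bt_empty h1 h2, e0, e1,
    Set.ncard_empty]
  omega

end Pool.Agent.Results.MP_2eb2b4_co.InfinitelyOften
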